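import Pool.Agent.W936.LC.Class

/-!
# Polynomial-size explicit hitting sets for sums of unboundedly many products of formulas

We give explicit hitting sets of polynomial size for sums `∑_i c_i T_i` of any number of products
`T_i`, of any number of factors, of read-once formulas of any depth with sparse polynomials at the
leaves, or of formulas which read every variable at most `w` times (the class `Composite` of
`MP_c2aa42_lc.SumsOfSparseFormulas`), if any `r` variables, outside of a set of at most `w`
variables, occur together in at most `κ` of the products, for constants `w, r, κ`. A variable may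
occur in unboundedly many factors of unboundedly many products. For `r = 0` these are the sums of
at most `κ` products; for `r ≥ 1` the top fan-in is unbounded, and the size of the hitting set does
not depend on it. For example, in a depth-3 or depth-4 circuit of this kind with `r = 2`, `κ = 1`
any two variables occur together in at most one product gate.

More generally the hypergraph of the sets of the variables of the products is only required to be
`Thin`: `0`-thin if it has at most `κ` edges, and `(r+1)`-thin if the links of all vertices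
outside of a set of at most `w` vertices are `r`-thin. The class `Cls` is closed under products and
factors, and it contains a polynomial `f` if it contains a nonzero polynomial `∑_x Λ_x f` where the
operator `Λ_x` acts on the variable `x` only, for instance a value `f(x = q)` (for a polynomial
`q`), a difference `f(x = a) - f(x = b)`, a coefficient of a power of `x`, or the derivative of `f`
along a polynomial vector field.

The proof: the generator with one more seed makes a variable `x` free; so if `f` vanishes on it then
all coefficients of the powers of `x` in `f` vanish on the generator (`LC.step_mem`). The differences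
of the values of a sum of products at two values of `x` are sums of products as before, where only
the products remain which contain `x`. Therefore, after `r` such steps, there are at most `2 ^ r κ`
products, and the hitting theorem of `MP_c2aa42_lc.SumsOfSparseFormulas` applies; if all
differences of some step are zero, the polynomial depends only on the few exceptional variables.
-/

set_option autoImplicit false

namespace Pool.Agent.Results.MP_c2aa42_lc.BoundedCooccurrence

open MvPolynomial

open Pool.Agent.Results.MP_c2aa42_lc.SumsOfSparseFormulas (Composite Sums points)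

variable {n : ℕ}

/-- The operator `Λ` acts on the variable `x` only: it is additive and commutes with the
multiplication by polynomials in which `x` does not occur. -/
def Acts (x : Fin n) (Λ : MvPolynomial (Fin n) ℂ → MvPolynomial (Fin n) ℂ) : Prop :=
  (∀ f g, Λ (f + g) = Λ f + Λ g) ∧ ∀ c f, x ∉ c.vars → Λ (c * f) = c * Λ f

/-- The class: it contains the members of `Sums w s D t κ` (for instance all sums of `κ` products
of members of `Composite w s D t`), it is closed under products and factors, and it contains `f`
with index `r + 1` if it contains the nonzero polynomial `∑_x Λ_x f` with index `r` for some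
operators `Λ_x` that act on the variable `x` only. -/
inductive Cls (w s D t κ : ℕ) : ℕ → MvPolynomial (Fin n) ℂ → Prop
  | sums {f : MvPolynomial (Fin n) ℂ} : Sums w s D t κ f → Cls w s D t κ 0 f
  | mono {r : ℕ} {f : MvPolynomial (Fin n) ℂ} : Cls w s D t κ r f → Cls w s D t κ (r + 1) f
  | mul {r : ℕ} {f g : MvPolynomial (Fin n) ℂ} :
      Cls w s D t κ r f → Cls w s D t κ r g → Cls w s D t κ r (f * g)
  | factor {r : ℕ} {f g : MvPolynomial (Fin n) ℂ} :
      Cls w s D t κ r g → g ≠ 0 → f ∣ g → Cls w s D t κ r f
  | step {r : ℕ} {f : MvPolynomial (Fin n) ℂ}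
      (Λ : Fin n → MvPolynomial (Fin n) ℂ → MvPolynomial (Fin n) ℂ) : (∀ x, Acts x (Λ x)) →
      ∑ x, Λ x f ≠ 0 → Cls w s D t κ r (∑ x, Λ x f) → Cls w s D t κ (r + 1) f

/-- `Thin w κ r J V`: the hypergraph with the edges `V i` (`i ∈ J`) is thin of depth `r`. Depth `0`:
there are at most `κ` edges. Depth `r + 1`: up to at most `w` exceptions, the link of every vertex
`x`, which consists of the sets `V i \ {x}` with `x ∈ V i`, is thin of depth `r`. -/
def Thin (w κ : ℕ) {I : Type} : ℕ → Finset I → (I → Finset (Fin n)) → Prop
  | 0, J, _ => J.card ≤ κ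
  | r + 1, J, V => ∃ E : Finset (Fin n), E.card ≤ w ∧
      ∀ x, x ∉ E → Thin w κ r (J.filter fun i => x ∈ V i) (fun i => (V i).erase x)

open Pool.Agent.H626R2.Loc (evG base)

open Pool.Agent.W936.LC hiding Acts

/-- the members of the class do not vanish on the generator -/
theorem cls_hit {w s D t κ A m : ℕ}
    (hm : ∀ f : MvPolynomial (Fin n) ℂ, Sums w s D t κ f → f ≠ 0 →
      evG ℂ (base ℂ n ((s + 2) ^ A)) (m * (t + 1)) f ≠ 0) {r : ℕ}
    {f : MvPolynomial (Fin n) ℂ} (hf : Cls w s D t κ r f) : f ≠ 0 →
    evG ℂ (base ℂ n ((s + 2) ^ A)) (m * (t + 1) + r) f ≠ 0 := by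
  induction hf with
  | sums h => exact fun h0 => hm _ h h0
  | mono _ ih => exact fun h0 => evG_mono (Nat.le_succ _) (ih h0)
  | mul _ _ ihf ihg =>
    intro h0
    rw [map_mul]
    exact mul_ne_zero (ihf (left_ne_zero_of_mul h0)) (ihg (right_ne_zero_of_mul h0))
  | factor _ hg0 hdvd ih =>
    intro _ hc
    obtain ⟨q, rfl⟩ := hdvd
    apply ih hg0
    rw [map_mul, hc, zero_mul]
  | @step r f Λ hΛ h1 _ ih =>
    intro _ hc
    apply ih h1
    rw [map_sum]
    exact Finset.sum_eq_zero fun x _ => step_mem hc (hΛ x)

theorem Cls.add {w s D t κ r : ℕ} {f : MvPolynomial (Fin n) ℂ} (h : Cls w s D t κ r f)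
    (k : ℕ) : Cls w s D t κ (r + k) f := by
  induction k with
  | zero => exact h
  | succ k ih => exact ih.mono

/-- an operator on one variable -/
theorem Cls.one {w s D t κ r : ℕ} {f : MvPolynomial (Fin n) ℂ} (x : Fin n)
    {Λ : MvPolynomial (Fin n) ℂ → MvPolynomial (Fin n) ℂ} (hΛ : Acts x Λ) (h0 : Λ f ≠ 0)
    (h : Cls w s D t κ r (Λ f)) : Cls w s D t κ (r + 1) f := by
  classical
  have h1 : ∑ y, (if y = x then Λ else fun _ => 0) f = Λ f := by
    rw [Finset.sum_eq_single x]
    · rw [if_pos rfl]
    · intro y _ hy
      rw [if_neg hy]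
    · intro h; exact absurd (Finset.mem_univ x) h
  refine .step (fun y => if y = x then Λ else fun _ => 0) (fun y => ?_) (by rwa [h1])
    (by rwa [h1])
  by_cases hy : y = x
  · subst hy
    rw [if_pos rfl]
    exact hΛ
  · rw [if_neg hy]
    exact acts_zero y

theorem cls_zero {w s D t κ r : ℕ} : Cls w s D t κ r (0 : MvPolynomial (Fin n) ℂ) := by
  have h1 : Cls w s D t κ 0 (0 : MvPolynomial (Fin n) ℂ) :=
    .sums ⟨0, Fin.elim0, fun i => i.elim0, fun u => (u 0).elim0, Subalgebra.zero_mem _⟩
  have h2 := h1.add r
  rwa [Nat.zero_add] at h2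

/-- polynomials in few variables -/
theorem cls_few {w s D t κ : ℕ} (k : ℕ) : ∀ {E : Finset (Fin n)} {f : MvPolynomial (Fin n) ℂ},
    f.vars ⊆ E → E.card ≤ k → Cls w s D t κ k f := by
  classical
  induction k with
  | zero =>
    intro E f hf hE
    rw [Nat.le_zero, Finset.card_eq_zero] at hE
    subst hE
    have h1 : f ∈ supported ℂ (∅ : Set (Fin n)) := by
      rw [mem_supported, Finset.subset_empty.1 hf, Finset.coe_empty]
    rw [supported_empty] at h1
    refine .sums ⟨0, Fin.elim0, fun i => i.elim0, fun u => (u 0).elim0, ?_⟩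
    obtain ⟨c, rfl⟩ := Algebra.mem_bot.1 h1
    exact Subalgebra.algebraMap_mem _ c
  | succ k ih =>
    intro E f hf hE
    by_cases hE0 : E.card ≤ k
    · exact (ih hf hE0).mono
    · obtain ⟨x, hx⟩ : E.Nonempty := Finset.card_pos.1 (by omega)
      by_cases hf0 : f = 0
      · subst hf0
        exact cls_zero
      · obtain ⟨a, ha⟩ := exists_sbt hf0 x
        refine Cls.one x (acts_sbt x a) ha (ih (E := E.erase x) ?_ ?_)
        · intro i hi
          obtain ⟨h1, h2⟩ := vars_sbt x a f hi
          exact Finset.mem_erase.2 ⟨h1, hf h2⟩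
        · rw [Finset.card_erase_of_mem hx]
          omega

theorem thin_double {w κ r : ℕ} {I : Type} {J : Finset I} {V : I → Finset (Fin n)}
    (h : Thin w κ r J V) :
    Thin w (2 * κ) r (J ×ˢ (Finset.univ : Finset Bool)) (fun p => V p.1) := by
  classical
  induction r generalizing J V with
  | zero =>
    show (J ×ˢ (Finset.univ : Finset Bool)).card ≤ 2 * κ
    have h1 : J.card ≤ κ := h
    rw [Finset.card_product, Finset.card_univ, Fintype.card_bool]
    omega
  | succ r ih =>
    obtain ⟨E, hE, hx⟩ := h
    refine ⟨E, hE, fun x hxE => ?_⟩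
    have h1 := ih (hx x hxE)
    have h2 : (J ×ˢ (Finset.univ : Finset Bool)).filter (fun p => x ∈ V p.1) =
        (J.filter fun i => x ∈ V i) ×ˢ (Finset.univ : Finset Bool) := by
      ext p
      simp only [Finset.mem_filter, Finset.mem_product, Finset.mem_univ, and_true]
    rw [← h2] at h1
    exact h1

theorem sums_of_few {w s D t κ : ℕ} {I : Type} (J : Finset I) (c : I → ℂ)
    (T : I → Multiset (MvPolynomial (Fin n) ℂ))
    (hT : ∀ i ∈ J, ∀ g ∈ T i, Composite w s D t g) (hJ : J.card ≤ κ) :
    Sums w s D t κ (∑ i ∈ J, C (c i) * (T i).prod) := by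
  classical
  refine ⟨J.card, fun k => T (J.equivFin.symm k), fun k => hT _ (J.equivFin.symm k).2, ?_, ?_⟩
  · intro u hu
    have h1 : Function.Injective u := by
      intro a b hab
      exact hu.injective (by
        show (T (J.equivFin.symm (u a))).prod = (T (J.equivFin.symm (u b))).prod
        rw [hab])
    have h2 := Fintype.card_le_of_injective u h1
    rw [Fintype.card_fin, Fintype.card_fin] at h2
    omega
  · refine Subalgebra.sum_mem _ fun i hi => ?_
    refine Subalgebra.mul_mem _ (Subalgebra.algebraMap_mem _ _) (Algebra.subset_adjoin ?_)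
    refine ⟨J.equivFin ⟨i, hi⟩, ?_⟩
    beta_reduce
    rw [Equiv.symm_apply_apply]

theorem prod_sbt (x : Fin n) (a : ℂ) (S : Multiset (MvPolynomial (Fin n) ℂ)) :
    sbt x a S.prod = (S.map (sbt x a)).prod := map_multiset_prod (sbt x a) S

/-- sums of products whose sets of variables form a thin hypergraph -/
theorem cls_of_thin {w s D t : ℕ} (r : ℕ) : ∀ {κ : ℕ} {I : Type} (J : Finset I) (c : I → ℂ)
    (T : I → Multiset (MvPolynomial (Fin n) ℂ)) (V : I → Finset (Fin n)),
    (∀ i ∈ J, ∀ g ∈ T i, Composite w s D t g ∧ g.vars ⊆ V i) → Thin w κ r J V →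
    Cls w s D t (2 ^ r * κ) (r + w) (∑ i ∈ J, C (c i) * (T i).prod) := by
  classical
  induction r with
  | zero =>
    intro κ I J c T V hT hJ
    rw [pow_zero, one_mul]
    exact (Cls.sums (sums_of_few J c T (fun i hi g hg => (hT i hi g hg).1) hJ)).add w
  | succ r ih =>
    intro κ I J c T V hT hJ
    obtain ⟨E, hE, hth⟩ := hJ
    set f := ∑ i ∈ J, C (c i) * (T i).prod with hf
    by_cases hall : ∀ x, x ∉ E → ∀ a b : ℂ, sbt x a f - sbt x b f = 0
    · have hv : f.vars ⊆ E := by
        intro x hx
        by_contra hxE
        have h1 := eq_sbt (hall x hxE) 0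
        rw [h1] at hx
        exact (vars_sbt x 0 f hx).1 rfl
      have h := (cls_few (w := w) (s := s) (D := D) (t := t) (κ := 2 ^ (r + 1) * κ) w hv hE).add
        (r + 1)
      rwa [Nat.add_comm w (r + 1)] at h
    push Not at hall
    obtain ⟨x, hx, a, b, hab⟩ := hall
    have h1 := ih (κ := 2 * κ) ((J.filter fun i => x ∈ V i) ×ˢ (Finset.univ : Finset Bool))
      (fun p => if p.2 then c p.1 else - c p.1)
      (fun p => (T p.1).map (sbt x (if p.2 then a else b))) (fun p => (V p.1).erase x) ?_
      (thin_double (hth x hx))
    · have h2 : ∑ p ∈ (J.filter fun i => x ∈ V i) ×ˢ (Finset.univ : Finset Bool),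
          C (if p.2 then c p.1 else - c p.1) *
            ((T p.1).map (sbt x (if p.2 then a else b))).prod = sbt x a f - sbt x b f := by
        rw [hf, map_sum, map_sum, ← Finset.sum_sub_distrib, Finset.sum_product,
          Finset.sum_filter]
        refine Finset.sum_congr rfl fun i hi => ?_
        rw [map_mul, map_mul, sbt_C, sbt_C, prod_sbt, prod_sbt]
        by_cases hxi : x ∈ V i
        · rw [if_pos hxi, Fintype.sum_bool]
          simp only [if_true, Bool.false_eq_true, if_false, C_neg]
          ring
        · rw [if_neg hxi]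
          have h3 : ∀ a : ℂ, (T i).map (sbt x a) = T i := by
            intro a
            conv_rhs => rw [← Multiset.map_id (T i)]
            refine Multiset.map_congr rfl fun g hg => ?_
            refine sbt_supp a ?_
            rw [mem_supported]
            intro k hk
            show k ≠ x
            rintro rfl
            exact hxi ((hT i hi g hg).2 (Finset.mem_coe.1 hk))
          rw [h3, h3, sub_self]
      rw [h2] at h1
      have h4 : 2 ^ r * (2 * κ) = 2 ^ (r + 1) * κ := by ring
      rw [h4] at h1
      have h5 := Cls.one x (Λ := fun g => sbt x a g - sbt x b g)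
        (acts_sub (acts_sbt x a) (acts_sbt x b)) hab h1
      rwa [Nat.add_right_comm] at h5
    · intro p hp g hg
      rw [Finset.mem_product, Finset.mem_filter] at hp
      obtain ⟨g', hg', rfl⟩ := Multiset.mem_map.1 hg
      obtain ⟨h3, h4⟩ := hT p.1 hp.1.1 g' hg'
      refine ⟨comp_sbt x _ h3, fun i hi => ?_⟩
      obtain ⟨h5, h6⟩ := vars_sbt x _ g' hi
      exact Finset.mem_erase.2 ⟨h5, h4 h6⟩

/-- hypergraphs in which any `r` vertices outside of `E` are contained in at most `κ` edges -/
theorem thin_of_sets {w κ : ℕ} (E : Finset (Fin n)) (hE : E.card ≤ w) {I : Type} (r : ℕ) :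
    ∀ (J : Finset I) (V : I → Finset (Fin n)), (∀ S : Finset (Fin n), S.card = r →
      Disjoint S E → (J.filter fun i => S ⊆ V i).card ≤ κ) → Thin w κ r J V := by
  classical
  induction r with
  | zero =>
    intro J V h
    have h1 := h ∅ rfl (Finset.disjoint_empty_left E)
    rwa [Finset.filter_true_of_mem (fun i _ => Finset.empty_subset _)] at h1
  | succ r ih =>
    intro J V h
    refine ⟨E, hE, fun x hx => ih _ _ fun S hS hSE => ?_⟩
    by_cases hxS : x ∈ S
    · refine le_trans (le_of_eq ?_) (Nat.zero_le κ)
      rw [Finset.card_eq_zero, Finset.filter_eq_empty_iff]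
      intro i _ hi
      exact Finset.notMem_erase x _ (hi hxS)
    · refine le_trans (Finset.card_le_card ?_) (h (insert x S)
        (by rw [Finset.card_insert_of_notMem hxS, hS])
        (Finset.disjoint_insert_left.2 ⟨hx, hSE⟩))
      intro i hi
      rw [Finset.mem_filter, Finset.mem_filter] at hi
      rw [Finset.mem_filter]
      exact ⟨hi.1.1, Finset.insert_subset hi.1.2 (hi.2.trans (Finset.erase_subset _ _))⟩

/-- (1) For all constants `w, D, κ, r` there are `k, m` such that for all `n, d, s, t` and
`N = (s + 2)^k` the explicit set `points n (m (t + 1)) N d ⊆ ℤ^n` with at most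
`(Nd+1) ((d+1)(nd+1))^(m (t+1))` elements hits every nonzero polynomial of total degree at most `d`
in `n` variables in `Cls w s D t κ r`. (2) With index `r + w` and `2^r κ` instead of `κ` this class
contains all sums `∑_{i ∈ J} c_i T_i` of any number of products of members of `Composite w s D t`
whose sets of variables are contained in the edges of a thin hypergraph of depth `r`. (3) A
hypergraph is thin of depth `r` if any `r` vertices, outside of a set of at most `w` vertices, are
contained in at most `κ` edges. -/
theorem result :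
    (∀ w D κ r : ℕ, ∃ k m : ℕ, ∀ n d s t : ℕ,
      (points n (m * (t + 1)) ((s + 2) ^ k) d).card ≤
        ((s + 2) ^ k * d + 1) * ((d + 1) * (n * d + 1)) ^ (m * (t + 1)) ∧
      (∀ p ∈ points n (m * (t + 1)) ((s + 2) ^ k) d, ∀ i, |p i| ≤
        ((2 ^ (n * (s + 2) ^ k * d) + m * (t + 1) * d * (n * d + n) ^ (n - 1) : ℕ) : ℤ)) ∧
      ∀ f : MvPolynomial (Fin n) ℂ, Cls w s D t κ r f → f ≠ 0 → f.totalDegree ≤ d →
        ∃ p ∈ points n (m * (t + 1)) ((s + 2) ^ k) d,
          MvPolynomial.eval (fun i => (p i : ℂ)) f ≠ 0) ∧
    (∀ (n w s D t κ r : ℕ) (I : Type) (J : Finset I) (c : I → ℂ)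
      (T : I → Multiset (MvPolynomial (Fin n) ℂ)) (V : I → Finset (Fin n)),
      (∀ i ∈ J, ∀ g ∈ T i, Composite w s D t g ∧ g.vars ⊆ V i) → Thin w κ r J V →
      Cls w s D t (2 ^ r * κ) (r + w) (∑ i ∈ J, C (c i) * (T i).prod)) ∧
    ∀ (n w κ r : ℕ) (I : Type) (J : Finset I) (V : I → Finset (Fin n)) (E : Finset (Fin n)),
      E.card ≤ w → (∀ S : Finset (Fin n), S.card = r → Disjoint S E →
        (J.filter fun i => S ⊆ V i).card ≤ κ) → Thin w κ r J V := by
  refine ⟨?_, fun n w s D t κ r I J c T V hT h => cls_of_thin r J c T V hT h,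
    fun n w κ r I J V E hE h => thin_of_sets E hE r J V h⟩
  intro w D κ r
  obtain ⟨k, m, hm⟩ := Pool.Agent.Results.MP_c2aa42_lc.SumsOfSparseFormulas.sums_hit w D κ
  refine ⟨k, m + r, fun n d s t =>
    ⟨Pool.Agent.H626R2.Loc.pointsE_card n _ ((s + 2) ^ k) d,
    fun p hp i => Pool.Agent.H626R2.Loc.pointsE_bound n _ ((s + 2) ^ k) d p hp i,
    fun f hf h0 hd => ?_⟩⟩
  refine Pool.Agent.Results.MP_c2aa42_lc.SumsOfSparseFormulas.exists_point
    (evG_mono ?_ (cls_hit (hm n s t) hf h0)) hd
  rw [add_mul]
  exact Nat.add_le_add_left (Nat.le_mul_of_pos_right _ (Nat.succ_pos t)) _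

end Pool.Agent.Results.MP_c2aa42_lc.BoundedCooccurrence
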