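import Pool.Agent.W945.Rl.Bound3

/-!
# Subexponential blackbox identity test for oblivious programs of length `c n log n / log log n`

We consider oblivious algebraic branching programs of arbitrary width `w` whose `L` layers read the
variables in a known order `ρ 0, …, ρ (L - 1)` (`Program`). Anderson, Forbes, Saptharishi, Shpilka
and Volk (CCC 2016) gave hitting sets with `2 ^ Õ(n ^ (1 - 1 / 2 ^ (k - 1)))` points if every
variable is read at most `k` times, which is subexponential for `k = o(log log n)` only, while their
exponential lower bounds hold for all `k ≤ c log n / log log n`. We give explicit sets of integer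
points with `Y ^ (80 n ^ (1 - 1 / (2 k + 4)) (1 + log₂ n) ^ 2)` elements, where
`Y = (n + 2) (F + 2) (w + 2) (d + 2) (L + 2)`, for all `k`, without any other dependence on `k`. This
is subexponential in the same range `k ≤ c log n / log log n`. It follows that for every `ε > 0` there
is an explicit hitting set with `Y ^ (ε n)` points for the programs of length
`L ≤ (ε / 16) n log n / log log n`, without any restriction on the number of reads of a variable. The
points also detect every divisor of a product of `F` nonzero programs.

*The construction.* The reads of a set `U` of `m` variables are divided into `4 k ^ 2` blocks of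
consecutive reads. If the blocks are coloured at random with two colours, and `X₀`, `X₁` are the
numbers of variables all of whose reads are in blocks of the colour `0`, `1`, then the expectation of
`X₀ X₁` is at least `m ^ 2 / (2 · 4 ^ k)`, because for each variable the variables which share a
block with it are at most half of all. Hence there are two classes with `m / (2 · 4 ^ k)` variables
each; the first such colouring is used. If all the other variables are constants, the polynomial is a
sum of `w ^ O(k ^ 2)` products of polynomials in the variables of the classes. The classes are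
treated recursively with the same coordinates, and they are merged by a new coordinate for every
class, with exponents `∑ κ ^ i e_i mod p`. Afterwards the other variables are treated. The number of
coordinates for `m` variables is at most `4 m ^ (1 - 1 / (2 k + 4))`.
-/

namespace Pool.Agent.Results.MP_c2aa42_lc.LongPrograms

open Pool.Agent.W945.Rl MvPolynomial

/-- **Explicit hitting sets for long oblivious programs of arbitrary width, in a known order.**

(1) The explicit integer points hit every divisor of a product of at most `F` nonzero polynomials
computed by oblivious programs of width `w` which read the variables in the order `ρ`, with entries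
of degree at most `d`, over every field of characteristic zero.

(2) The coordinates of the points have at most `Y ^ (80 (1 + log₂ n) ^ 2)` bits,
`Y = (n + 2) (F + 2) (w + 2) (d + 2) (L + 2)`.

(3) The number of points is at most `Y ^ (80 n ^ (1 - 1 / (2 k + 4)) (1 + log₂ n) ^ 2)`, times
`(F d L + 1) ^ h` if `h` variables are read more than `k` times.

(4) For `n ≥ NN ε`, `L ≤ (ε / 16) n log n / log log n` and
`k = kk n = ⌊log n / (8 log log n)⌋ ≥ 1`, the number of points is at most `Y ^ (ε n)`. -/
theorem result :
    (∀ k n F w d L : ℕ, ∀ ρ : ℕ → Fin n, 1 ≤ k → 1 ≤ F →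
      ∀ (K : Type) [Field K] [CharZero K] (f : MvPolynomial (Fin n) K),
        Divides K F w d L ρ f →
          ∃ x ∈ points k 1 F w d L ρ, eval (fun u => (x u : K)) f ≠ 0) ∧
    (∀ k n F w d L : ℕ, ∀ ρ : ℕ → Fin n, 1 ≤ k → 1 ≤ n → 1 ≤ F → 1 ≤ w →
      ∀ x ∈ points k 1 F w d L ρ, ∀ u,
        (x u).natAbs ≤ 2 ^ (YY n F w d L ^ (80 * (1 + Nat.log 2 n) ^ 2))) ∧
    (∀ (k n F w d L : ℕ) (ρ : ℕ → Fin n), 1 ≤ k → 1 ≤ n → 1 ≤ F → 1 ≤ w →
      ((points k 1 F w d L ρ).card : ℝ) ≤
        (YY n F w d L : ℝ) ^ (80 * (n : ℝ) ^ (1 - 1 / (2 * (k : ℝ) + 4)) *
          (1 + Nat.log 2 n) ^ 2) * (F * (d * L) + 1) ^ (heavy k L ρ).card) ∧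
    (∀ ε : ℝ, 0 < ε → ∀ (n F w d L : ℕ) (ρ : ℕ → Fin n), NN ε ≤ n → 1 ≤ F → 1 ≤ w →
      (L : ℝ) ≤ ε / 16 * n * Real.log n / Real.log (Real.log n) →
        1 ≤ kk n ∧
        ((points (kk n) 1 F w d L ρ).card : ℝ) ≤ (YY n F w d L : ℝ) ^ (ε * n)) := by
  haveI : Fact (1 = 1) := ⟨rfl⟩
  refine ⟨?_, ?_, ?_, ?_⟩
  · intro k n F w d L ρ hk hF K _ _ f hf
    exact hits hk hF hf
  · intro k n F w d L ρ hk hn hF hw x hx u
    have : NeZero w := ⟨by omega⟩
    exact abs_le_of_mem hk hF hn hx u
  · intro k n F w d L ρ hk hn hF hw
    have := points_card (k := k) (n := n) (F := F) (w := w) (d := d) (L := L) (ρ := ρ) hk hF hw hn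
    simpa [CC] using this
  · intro ε hε n F w d L ρ hn hF hw hL
    exact long hε hn hF hw hL

end Pool.Agent.Results.MP_c2aa42_lc.LongPrograms
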