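import Mathlib
import Pool.Agent.W943.Orb8

/-!
# Polynomial-size explicit hitting sets for orbits of constant-width ROABPs

We consider the compositions `F ∘ φ`, where `F` is a sum of `c` read-once oblivious algebraic
branching programs of width `w` in `m` variables, in arbitrary orders and of arbitrary degree, and
`φ` is a tuple of `m` polynomials in `n` variables with a well-behaved Jacobian matrix: for
instance `m` linearly independent affine forms (orbits), coordinates of polynomial automorphisms,
independent monomials. The explicit set has `((D+1)(nD+1))^s` points with `s` depending on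
`c` and `w` only. The class treated is closed under such compositions, products, factors,
primitives and bounded sums of Wronskian type.
-/

namespace Pool.Agent.Results.MP_c2aa42_lc.OrbitsOfROABPs

open MvPolynomial

/-- `f` is computed by a read-once oblivious algebraic branching program (ROABP) of width `w`
that reads the variables in the order `σ 0, σ 1, …, σ (m-1)`: `f` is the bilinear form
`u ⬝ (M 0)(x_{σ 0}) ⬝ (M 1)(x_{σ 1}) ⋯ (M (m-1))(x_{σ (m-1)}) ⬝ v`, where `M k` is a `w × w` matrix
of univariate polynomials of arbitrary degree and `u`, `v` are constant vectors. -/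
def IsROABP {m : ℕ} (w : ℕ) (σ : Equiv.Perm (Fin m)) (f : MvPolynomial (Fin m) ℂ) : Prop :=
  ∃ (M : Fin m → Matrix (Fin w) (Fin w) (Polynomial ℂ)) (u v : Fin w → ℂ),
    f = ∑ a, ∑ b, C (u a) *
      (List.ofFn fun k : Fin m =>
        (M k).map (Polynomial.aeval (X (σ k) : MvPolynomial (Fin m) ℂ))).prod a b * C (v b)

/-- `f` is a sum of `c` polynomials, each computed by a ROABP of width `w` in its own order. -/
def IsSumROABP {m : ℕ} (c w : ℕ) (f : MvPolynomial (Fin m) ℂ) : Prop :=
  ∃ g : Fin c → MvPolynomial (Fin m) ℂ, (∀ i, ∃ σ : Equiv.Perm (Fin m), IsROABP w σ (g i)) ∧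
    f = ∑ i, g i

/-- `cost w 0 = 0` and `cost w (s + 1) = cost w s + w (w - s) + 2`; in particular
`cost w w = w²(w + 1)/2 + 2w`. -/
def cost (w : ℕ) : ℕ → ℕ
  | 0 => 0
  | s + 1 => cost w s + w * (w - s) + 2

/-- The number of seed pairs for the orbits of the sums of `c` programs of width `w`. It depends
on `c` and `w` only; `seeds 1 w = (w²(w+1)/2 + 2w) (w²+1)^(w²) + w² + 2`. -/
def seeds : ℕ → ℕ → ℕ
  | 0, _ => 1
  | c + 1, w => cost w w * (w * w + 1) ^ (w * w) + (c + 1) * (w * w + 1) + seeds c (w * (w + 1))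

/-- The point with seeds `y, z ∈ ℕ^s`: its `i`-th coordinate is
`∑_l y_l ∏_{k ≠ i} (z_l - k)` (the Shpilka–Volkovich generator with nodes `0, …, n-1`). -/
def point (n s : ℕ) (y z : Fin s → ℕ) : Fin n → ℤ :=
  fun i => ∑ l : Fin s, (y l : ℤ) * ∏ k ∈ Finset.univ.erase i, ((z l : ℤ) - (k.val : ℤ))

/-- The explicit set of all points with seeds `y ∈ {0,…,D}^s`, `z ∈ {0,…,nD}^s`. -/
def points (n s D : ℕ) : Finset (Fin n → ℤ) :=
  ((Fintype.piFinset fun _ : Fin s => Finset.range (D + 1)) ×ˢ
    (Fintype.piFinset fun _ : Fin s => Finset.range (n * D + 1))).image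
    fun yz => point n s yz.1 yz.2

/-- The derivative of `P` along the polynomial vector field `V`. -/
noncomputable def field {n : ℕ} (V : Fin n → MvPolynomial (Fin n) ℂ)
    (P : MvPolynomial (Fin n) ℂ) : MvPolynomial (Fin n) ℂ := ∑ l, V l * pderiv l P

/-- `Cls n s f`: the polynomial `f` in `n` variables is in the class with `s` seed pairs. -/
inductive Cls : (n : ℕ) → ℕ → MvPolynomial (Fin n) ℂ → Prop
  /-- nonzero sums of `c` ROABPs of width `w` -/
  | roabp {n c w : ℕ} {f : MvPolynomial (Fin n) ℂ} (h : IsSumROABP c w f) (h0 : f ≠ 0) :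
      Cls n (seeds c w) f
  /-- nonzero polynomials of total degree at most `d` -/
  | low {n d : ℕ} {f : MvPolynomial (Fin n) ℂ} (h0 : f ≠ 0) (hd : f.totalDegree ≤ d) : Cls n d f
  /-- all nonzero polynomials in `n` variables, with `n` seed pairs -/
  | few {n : ℕ} {f : MvPolynomial (Fin n) ℂ} (h0 : f ≠ 0) : Cls n n f
  | mono {n s s' : ℕ} {f : MvPolynomial (Fin n) ℂ} (h : Cls n s f) (hs : s ≤ s') : Cls n s' f
  | mul {n s : ℕ} {f g : MvPolynomial (Fin n) ℂ} (hf : Cls n s f) (hg : Cls n s g) :
      Cls n s (f * g)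
  | factor {n s : ℕ} {f g : MvPolynomial (Fin n) ℂ} (hg : Cls n s g) (h : f ∣ g) : Cls n s f
  | primitive {n s : ℕ} {f : MvPolynomial (Fin n) ℂ} (V : Fin n → MvPolynomial (Fin n) ℂ)
      (h : Cls n s (field V f)) : Cls n (s + 1) f
  /-- sums `∑ h_α Q_α` with `V Q_α = 0` for a vector field `V`, if the product of one `Q_α` with
  the Wronskian of the `h_α` is in the class -/
  | wronskian {n s r : ℕ} (V : Fin n → MvPolynomial (Fin n) ℂ)
      (h Q : Fin (r + 1) → MvPolynomial (Fin n) ℂ) (hQ : ∀ α, field V (Q α) = 0)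
      (α : Fin (r + 1)) (hW : Cls n s
        ((Matrix.of fun k β : Fin (r + 1) => ((field V)^[k.val]) (h β)).det * Q α)) :
      Cls n (s + r) (∑ β, h β * Q β)
  /-- The composition `F(φ_1, …, φ_m)`, where `F` is in the class and
  `∑_l D_{il} ∂φ_k/∂x_l = δ_{ik} Δ` for some polynomials `D_{il}` and some `Δ` in the class. For
  example `Δ` may be a maximal minor of the Jacobian matrix of `φ`, and `Δ = 1` is possible if the
  `φ_k` are linearly independent affine forms or coordinates of a polynomial automorphism. -/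
  | comp {n m s s' : ℕ} {F : MvPolynomial (Fin m) ℂ} (hF : Cls m s' F)
      (φ : Fin m → MvPolynomial (Fin n) ℂ) (D : Fin m → Fin n → MvPolynomial (Fin n) ℂ)
      {Δ : MvPolynomial (Fin n) ℂ}
      (hD : ∀ i k, ∑ l, D i l * pderiv l (φ k) = if i = k then Δ else 0) (hΔ : Cls n s Δ) :
      Cls n (s + s') (aeval φ F)

open Pool.Agent.H530R2 Pool.Agent.W943 in
theorem isRO_of_isROABP {n w : ℕ} {σ : Equiv.Perm (Fin n)} {f : MvPolynomial (Fin n) ℂ}
    (h : IsROABP w σ f) : IsRO σ w Set.univ f := by
  obtain ⟨M, u, v, rfl⟩ := h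
  refine ⟨fun i => M (σ.symm i), u, v, fun i hi => absurd (Set.mem_univ i) hi, ?_⟩
  have key : ∀ m : ℕ, ∀ hm : m ≤ n,
      (List.ofFn fun k : Fin m => (M (Fin.castLE hm k)).map
        (Polynomial.aeval (X (σ (Fin.castLE hm k)) : MvPolynomial (Fin n) ℂ))).prod =
      Pr (pv σ) (toSeq σ fun i => M (σ.symm i)) 0 m := by
    intro m
    induction m with
    | zero => intro _; simp [Pr_zero]
    | succ m ih =>
      intro hm
      rw [List.ofFn_succ', List.concat_eq_append, List.prod_append, List.prod_singleton, Pr_succ,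
        ← ih (by omega)]
      congr 1
      unfold Nh toSeq
      rw [dif_pos (show 0 + m < n by omega)]
      have h1 : (⟨0 + m, by omega⟩ : Fin n) = Fin.castLE hm (Fin.last m) := by
        apply Fin.ext
        simp
      rw [h1]
      simp only [Equiv.symm_apply_apply]
      have h2 : (pv σ (0 + m) : MvPolynomial (Fin n) ℂ) = X (σ (Fin.castLE hm (Fin.last m))) := by
        rw [pv_mem_supported σ (0 + m) (by omega), h1]
      rw [h2]
  have key' := key n le_rfl
  unfold roVal
  rw [← key']
  simp only [Fin.castLE_rfl, id, dotProduct, Matrix.mulVec, emb, MvPolynomial.algebraMap_eq,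
    Finset.mul_sum, mul_assoc]

theorem cost_eq (w s : ℕ) : cost w s = Pool.Agent.H530R2.lcost w s := by
  induction s with
  | zero => rfl
  | succ s ih => simp only [cost, Pool.Agent.H530R2.lcost, ih]

theorem seeds_eq (c w : ℕ) : seeds c w = Pool.Agent.W943.seedsO c w := by
  induction c generalizing w with
  | zero => rfl
  | succ c ih =>
    simp only [seeds, Pool.Agent.W943.seedsO, ih, cost_eq, Pool.Agent.W943.rB]

open Pool.Agent.H530R2 Pool.Agent.W943 in
/-- The polynomials of the class are not in the primes of the corresponding level. -/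
theorem Cls.notMem {n s : ℕ} {f : MvPolynomial (Fin n) ℂ} (h : Cls n s f) :
    ∀ V : DChain ℂ n, f ∉ V.I s := by
  induction h with
  | roabp h h0 =>
    intro V hc
    obtain ⟨A, hA, hsum⟩ := h
    choose σs hσs using hA
    rw [seeds_eq] at hc
    exact h0 (V.sumRO_eq_zero _ _ σs _ ⟨A, fun i => isRO_of_isROABP (hσs i), hsum⟩ hc)
  | low h0 hd => exact fun V => V.low_notMem _ _ h0 hd
  | few h0 =>
    intro V hc
    rw [V.level_n] at hc
    exact h0 ((Submodule.mem_bot _).1 hc)
  | mono h hs ih => exact fun V hc => ih V (V.mono hs hc)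
  | mul hf hg ihf ihg =>
    intro V hc
    rcases (V.prime _).mem_or_mem hc with h | h
    · exact ihf V h
    · exact ihg V h
  | factor hg h ih => exact fun V hc => ih V (Ideal.mem_of_dvd _ h hc)
  | primitive D h ih => exact fun V hc => ih V (V.vf_mem D hc)
  | wronskian D h Q hQ α hW ih => exact fun V hc => ih V (V.wronskian D _ _ h Q hQ hc α)
  | comp hF φ D hD hΔ ihF ihΔ =>
    intro V hc
    exact ihF (V.pull φ D _ hD _ (ihΔ V)) hc

/-- The class is closed under compositions with linearly independent affine forms. -/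
theorem affine {n m s : ℕ} {F : MvPolynomial (Fin m) ℂ} (hF : Cls m s F)
    (A : Fin m → Fin n → ℂ) (b : Fin m → ℂ) (hA : LinearIndependent ℂ A) :
    Cls n s (aeval (fun k => ∑ l, C (A k l) * X l + C (b k)) F) := by
  classical
  have hd : ∀ i : Fin m, ∃ d : Fin n → ℂ, ∀ k, A k ⬝ᵥ d = if i = k then 1 else 0 :=
    fun i => Pool.Agent.H530R2.exists_dual A hA _
  choose d hd using hd
  have h := Cls.comp (n := n) hF (fun k => ∑ l, C (A k l) * X l + C (b k))
    (fun i l => C (d i l)) (Δ := 1) (s := 0) ?_ (Cls.low one_ne_zero (by simp))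
  · rwa [zero_add] at h
  · intro i k
    have h1 : ∀ l, pderiv l (∑ l', C (A k l') * X l' + C (b k) : MvPolynomial (Fin n) ℂ) =
        C (A k l) := by
      intro l
      rw [map_add, pderiv_C, add_zero, map_sum, Finset.sum_eq_single l]
      · rw [pderiv_C_mul, pderiv_X_self, mul_one]
      · intro l' _ hl'
        rw [pderiv_C_mul, pderiv_X_of_ne hl', mul_zero]
      · intro h; exact absurd (Finset.mem_univ _) h
    simp only [h1, ← map_mul, ← map_sum]
    have h2 : ∑ l, d i l * A k l = if i = k then 1 else 0 := by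
      rw [← hd i k, dotProduct]
      exact Finset.sum_congr rfl fun l _ => mul_comm _ _
    rw [h2]
    split_ifs
    · rw [map_one]
    · rw [map_zero]

/-- For all `n, s, D` the explicit set `points n s D ⊆ ℤ^n` has at most `((D+1)(nD+1))^s`
elements, with coordinates of polynomial bit length, and it hits all polynomials of degree at most
`D` in the class `Cls n s`. This class contains all nonzero sums of `c` ROABPs of width `w` for
`s = seeds c w`, which depends on `c` and `w` only, and for every `s` the class is closed under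
compositions with linearly independent affine forms, also with a change of the number of
variables. -/
theorem result (n s D : ℕ) :
    (points n s D).card ≤ ((D + 1) * (n * D + 1)) ^ s ∧
    (∀ p ∈ points n s D, ∀ i, |p i| ≤ ((s * D * (n * D + n) ^ (n - 1) : ℕ) : ℤ)) ∧
    (∀ f : MvPolynomial (Fin n) ℂ, Cls n s f → f.totalDegree ≤ D →
      ∃ p ∈ points n s D, MvPolynomial.eval (fun i => (p i : ℂ)) f ≠ 0) ∧
    (∀ (m : ℕ) (F : MvPolynomial (Fin m) ℂ) (A : Fin m → Fin n → ℂ) (b : Fin m → ℂ),
      Cls m s F → LinearIndependent ℂ A →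
      Cls n s (aeval (fun k => ∑ l, C (A k l) * X l + C (b k)) F)) ∧
    ∀ w : ℕ, seeds 1 w = (w ^ 2 * (w + 1) / 2 + 2 * w) * (w ^ 2 + 1) ^ (w ^ 2) + w ^ 2 + 2 := by
  refine ⟨Pool.Agent.H530R2.hitSet_card n _ D,
    fun p hp i => Pool.Agent.H530R2.hitSet_bound n _ D p hp i, ?_,
    fun m F A b hF hA => affine hF A b hA, ?_⟩
  · intro f hf hD
    exact Pool.Agent.H530R2.exists_hit n s D f hD (hf.notMem
      (Pool.Agent.W943.genChain (fun i : Fin n => ((i.val : ℕ) : ℂ))
        (Pool.Agent.H530R2.nodes_injective n)))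
  · intro w
    have key : ∀ s ≤ w, 2 * cost w s + w * (s * s) = 2 * w * w * s + w * s + 4 * s := by
      intro s
      induction s with
      | zero => intro _; simp [cost]
      | succ s ih =>
        intro hs
        have := ih (by omega)
        obtain ⟨d, hd⟩ := Nat.exists_eq_add_of_le hs
        subst hd
        simp only [cost]
        have e1 : s + 1 + d - s = d + 1 := by omega
        rw [e1]
        nlinarith
    have h1 := key w le_rfl
    have h2 : 2 * cost w w = w ^ 2 * (w + 1) + 4 * w := by nlinarith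
    have h3 : cost w w = w ^ 2 * (w + 1) / 2 + 2 * w := by omega
    simp only [seeds, h3]
    ring_nf

end Pool.Agent.Results.MP_c2aa42_lc.OrbitsOfROABPs
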