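import Mathlib
import Pool.Agent.W943.Cut.C6

/-!
# Explicit hitting sets for orbits of wide read-once programs

We consider compositions `F ∘ φ`, where `F` is computed by a read-once oblivious program (ROABP) in
`m` variables, in an unknown order and of arbitrary degrees, and `φ` is a tuple of `m` linearly
independent affine forms in `n` variables (or another submersive tuple of polynomials). The explicit
set has `((D+1)(nD+1))^s` points, with

* `s = 1 + W(W-1)/2`, independent of `m` and `n`, for programs of width `W` whose matrices are
  generically invertible, and `s = 1 + W(W-1)/2 + (W-1)d` if less than `2^d` of the matrices are not;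
* `s = k + min(e, W-1) d` for programs with at most `2^d k` layers and of any width `W` whose layers
  are `A + P R(x)` with constant `A`, `P` and a polynomial `e × W` matrix `R`; for `e = W` these are
  all ROABPs of width `W`, for `e = 1` this includes all algebraic branching programs of any size
  where each variable labels one edge, for instance the iterated product of matrices of variables.
-/

namespace Pool.Agent.Results.MP_c2aa42_lc.OrbitsOfWidePrograms

open MvPolynomial Pool.Agent.W943.Cut

/-- `f` is a nonzero composition of a read-once program and a submersive tuple, with the number `s`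
of seed pairs given by the width and the number of singular layers, or by the rank of the layers
and the length. -/
def InOrbit (n s : ℕ) (f : MvPolynomial (Fin n) ℂ) : Prop :=
  ∃ (m W : ℕ) (φ : Fin m → MvPolynomial (Fin n) ℂ)
    (L : List (Fin m × Matrix (Fin W) (Fin W) (Polynomial ℂ))) (u v : Fin W → ℂ),
    Submersive φ ∧ (L.map Prod.fst).Nodup ∧ f = aeval φ (prog u v L) ∧ f ≠ 0 ∧
    ((∃ d, singular L < 2 ^ d ∧ 1 + W * (W - 1) / 2 + (W - 1) * d ≤ s) ∨
      ∃ e k d, (∀ p ∈ L, RankLe e p.2) ∧ L.length ≤ k * 2 ^ d ∧ k + min e (W - 1) * d ≤ s)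

theorem InOrbit.cls {n s : ℕ} {f : MvPolynomial (Fin n) ℂ} (h : InOrbit n s f) : Cls n s f := by
  obtain ⟨m, W, φ, L, u, v, hφ, hL, rfl, h0, h⟩ := h
  have h1 : prog u v L ≠ 0 := by
    intro h1
    apply h0
    rw [h1, map_zero]
  apply hφ.cls
  rcases h with ⟨d, hd, hs⟩ | ⟨e, k, d, he, hk, hs⟩
  · exact (singular_mem d L u v hL ((singular_tail_le L).trans_lt hd) h1).mono hs
  · exact (rank_mem L u v hL he hk h1).mono hs

/-- The explicit set `points n s D ⊆ ℤ^n` has at most `((D+1)(nD+1))^s` elements, with coordinates
of polynomial bit length, and it hits every polynomial of degree at most `D` which divides a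
product of compositions `F ∘ φ` as above: `F` is computed by a read-once program, `φ` consists for
instance of linearly independent affine forms. -/
theorem result (n s D : ℕ) :
    (points n s D).card ≤ ((D + 1) * (n * D + 1)) ^ s ∧
    (∀ p ∈ points n s D, ∀ i, |p i| ≤ ((s * D * (n * D + n) ^ (n - 1) : ℕ) : ℤ)) ∧
    (∀ (f : MvPolynomial (Fin n) ℂ) (l : List (MvPolynomial (Fin n) ℂ)), f.totalDegree ≤ D →
      (∀ g ∈ l, InOrbit n s g) → f ∣ l.prod →
      ∃ p ∈ points n s D, MvPolynomial.eval (fun i => (p i : ℂ)) f ≠ 0) ∧
    (∀ (m : ℕ) (A : Fin m → Fin n → ℂ) (b : Fin m → ℂ), LinearIndependent ℂ A →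
      Submersive (fun k => ∑ l, C (A k l) * X l + C (b k) : Fin m → MvPolynomial (Fin n) ℂ)) :=
  ⟨Pool.Agent.H530R2.hitSet_card n _ D,
    fun p hp i => Pool.Agent.H530R2.hitSet_bound n _ D p hp i,
    fun _ l hD hl hf => hit hD l (fun g hg => (hl g hg).cls) hf,
    fun _ A b hA => submersive_affine A b hA⟩

end Pool.Agent.Results.MP_c2aa42_lc.OrbitsOfWidePrograms
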