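import Mathlib
import Pool.Agent.W915.HP5

/-!
# Explicit hitting sets for nested sums of unboundedly many high powers

A layer over a class `S` of polynomials consists of the sums of `k` terms
`R_i (g_i1 ⋯ g_ir)^E`, where the `R_i` have at most `s` monomials and degree at most `δ` and the
`g_ij` are in `S`. The number `k` of terms is not bounded, the exponent `E` is larger than a fixed
power of `k`, `s`, `δ` and the number of variables. Layers are nested: `Lay S k r s δ E L` is
obtained from `S` by `L` layers, the layer number `l` with the exponent `E l`.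

If `S` is the class of the sums of `q` products (of any number of factors) of polynomials in
`w` formulas which read every variable at most `w` times, over programs of constant width and
constant read, there are explicit hitting sets of polynomial size for the factors of products of
members of `Lay S k r s δ E L`, for bounded `r ^ L` (for `r = 1` the number `L` of the layers is
not bounded).

Remark (`Pool.Agent.W915.HP.transfer`): for an arbitrary class `S` the black-box test for
`Lay S k r s δ E L` reduces to that of linear combinations of two products of `r ^ L` members of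
`S`: the hitting set consists of points on the curve through the points of a hitting set for these
combinations and for sparse polynomials.

The proof: over a field of functions of one variable, a Wronskian argument (Newman-Slater, Mason;
`Pool.Agent.H964R4.far_auxR` by helper964) shows that high powers of pairwise non-proportional
polynomials are linearly independent over the polynomials of small degree (`ns`). A substitution
is restricted to a generic line (`ns_mv`). So a substitution which keeps any two products of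
members of a class linearly independent has the same property for the next layer (`step`).
-/

set_option autoImplicit false

namespace Pool.Agent.Results.MP_c2aa42_lc.ZHighPowerSums

open MvPolynomial Pool.Agent.W915.HP Pool.Agent.W915.SSF

open Pool.Agent.H626R2.Loc (evG base)

theorem layers_hit (w D q ρ : ℕ) : ∃ A m c : ℕ, ∀ n s t k δ r L : ℕ, ∀ E : ℕ → ℕ,
    1 ≤ r → r ^ L ≤ ρ → (∀ l < L, (n + s + k + δ + 2) ^ c ≤ E l) →
    ∀ f ∈ Lay {g : MvPolynomial (Fin n) ℂ | Sums w s D t q g} k r s δ E L, f ≠ 0 →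
      evG ℂ (base ℂ n ((s + k + 2) ^ A)) (m * (t + 1)) f ≠ 0 := by
  obtain ⟨A₀, m, hm⟩ := sums_hit w D (2 * ρ * q)
  refine ⟨A₀ + (2 * ρ + 1), m, 4 * ρ + (A₀ + (2 * ρ + 1)) + 8, ?_⟩
  intro n s t k δ r L E hr hρ hE f hf hf0
  set A := A₀ + (2 * ρ + 1) with hA
  set N := (s + k + 2) ^ A with hN
  set Y := n + s + k + δ + 2 with hY
  have hY2 : 2 ≤ Y := by omega
  have hY1 : 1 ≤ Y := by omega
  have hX : s + k + 2 ≤ Y := by omega
  have hN1 : (s + 2) ^ A₀ ≤ N := by
    rw [hN, hA, pow_add]
    refine le_trans (Nat.pow_le_pow_left (by omega) A₀) (Nat.le_mul_of_pos_right _ (by positivity))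
  have hN2 : 2 * (k * s + 1) ^ ρ ≤ N := by
    have h1 : k * s + 1 ≤ (s + k + 2) ^ 2 := by nlinarith
    calc 2 * (k * s + 1) ^ ρ ≤ (s + k + 2) * ((s + k + 2) ^ 2) ^ ρ :=
          Nat.mul_le_mul (by omega) (Nat.pow_le_pow_left h1 ρ)
      _ = (s + k + 2) ^ (2 * ρ + 1) := by rw [← pow_mul, pow_succ, mul_comm]
      _ ≤ N := by
          rw [hN, hA, pow_add (s + k + 2) A₀]
          exact Nat.le_mul_of_pos_left _ (by positivity)
  have hNY : N ≤ Y ^ A := Nat.pow_le_pow_left hX A
  have hthr : ∀ l < L, (2 * (k + 1) ^ ρ) ^ 3 * (ρ * δ * (N + n + 1) + 1) < E l := by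
    intro l hl
    refine lt_of_lt_of_le ?_ (hE l hl)
    have h1 : 2 * (k + 1) ^ ρ ≤ Y ^ (ρ + 1) := by
      rw [pow_succ, mul_comm]
      exact Nat.mul_le_mul (Nat.pow_le_pow_left (by omega) ρ) hY2
    have h2 : ρ ≤ Y ^ ρ := (Nat.lt_two_pow_self).le.trans (Nat.pow_le_pow_left hY2 ρ)
    have h3 : N + n + 1 ≤ Y ^ (A + 1) := by
      have h4 : 1 ≤ Y ^ A := Nat.one_le_pow _ _ hY1
      calc N + n + 1 ≤ Y ^ A + Y ^ A * (n + 1) := by
            have h5 : n + 1 ≤ Y ^ A * (n + 1) := Nat.le_mul_of_pos_left _ h4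
            omega
        _ = Y ^ A * (n + 2) := by ring
        _ ≤ Y ^ A * Y := Nat.mul_le_mul_left _ (by omega)
        _ = Y ^ (A + 1) := (pow_succ _ _).symm
    have h4 : ρ * δ * (N + n + 1) + 1 ≤ Y ^ (ρ + A + 3) := by
      have h5 : ρ * δ * (N + n + 1) ≤ Y ^ (ρ + A + 2) := by
        calc ρ * δ * (N + n + 1) ≤ Y ^ ρ * Y * Y ^ (A + 1) :=
              Nat.mul_le_mul (Nat.mul_le_mul h2 (by omega)) h3
          _ = Y ^ (ρ + A + 2) := by ring
      have h6 : 1 ≤ Y ^ (ρ + A + 2) := Nat.one_le_pow _ _ hY1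
      calc ρ * δ * (N + n + 1) + 1 ≤ Y ^ (ρ + A + 2) * 2 := by omega
        _ ≤ Y ^ (ρ + A + 2) * Y := Nat.mul_le_mul_left _ hY2
        _ = Y ^ (ρ + A + 3) := (pow_succ _ _).symm
    calc (2 * (k + 1) ^ ρ) ^ 3 * (ρ * δ * (N + n + 1) + 1)
        ≤ (Y ^ (ρ + 1)) ^ 3 * Y ^ (ρ + A + 3) :=
          Nat.mul_le_mul (Nat.pow_le_pow_left h1 3) h4
      _ = Y ^ (4 * ρ + A + 6) := by ring
      _ < Y ^ (4 * ρ + A + 8) := Nat.pow_lt_pow_right hY2 (by omega)
  have hS : PairInj (gen n N (m * (t + 1)))
      (Prods {g : MvPolynomial (Fin n) ℂ | Sums w s D t q g} (r ^ L)) := by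
    intro a ha b hb x y h0
    by_contra hc
    have hκ : 2 * r ^ L * q ≤ 2 * ρ * q :=
      Nat.mul_le_mul_right _ (Nat.mul_le_mul_left _ hρ)
    exact gen_ne.2 (hm n s t N hN1 _ (sums_pair hκ ha hb x y) hc) h0
  have hl := layers (gen n N (m * (t + 1))) (N + n + 1) (gen_X_totalDegree N _) k r s δ L ρ E
    hr hρ hS (fun h hh h0 => gen_sparse h0 (hh.trans hN2)) hthr
  exact gen_ne.1 (hl.ne hf hf0)

/-- For all `w, D, q, ρ` there are `A, m, c` such that the explicit set
`points n (m (t + 1)) ((s + k + 2)^A) d ⊆ ℤ^n` hits every polynomial of degree at most `d` which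
divides a product of nonzero members of `Lay S k r s δ E L`, where `S` is the class
`Sums w s D t q`, if `r ^ L ≤ ρ` and `E l ≥ (n + s + k + δ + 2)^c` for all `l < L`.

`Sums w s D t q` contains all sums of `q` products (of any number of factors) of formulas which
read every variable at most `w` times and have rank at most `t`, or are read-once, or have at most
`t` blocks of sums on every path, or fewer than `2 ^ (t + 1)` leaves. -/
theorem result :
    (∀ w D q ρ : ℕ, ∃ A m c : ℕ, ∀ n s t k δ d : ℕ,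
      (points n (m * (t + 1)) ((s + k + 2) ^ A) d).card ≤
        ((s + k + 2) ^ A * d + 1) * ((d + 1) * (n * d + 1)) ^ (m * (t + 1)) ∧
      (∀ p ∈ points n (m * (t + 1)) ((s + k + 2) ^ A) d, ∀ i, |p i| ≤
        ((2 ^ (n * (s + k + 2) ^ A * d) +
          m * (t + 1) * d * (n * d + n) ^ (n - 1) : ℕ) : ℤ)) ∧
      ∀ (r L : ℕ) (E : ℕ → ℕ), 1 ≤ r → r ^ L ≤ ρ →
        (∀ l < L, (n + s + k + δ + 2) ^ c ≤ E l) →
        ∀ (f : MvPolynomial (Fin n) ℂ) (J : ℕ) (F : Fin J → MvPolynomial (Fin n) ℂ),
          (∀ j, F j ∈ Lay {g : MvPolynomial (Fin n) ℂ | Sums w s D t q g} k r s δ E L) →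
          (∀ j, F j ≠ 0) → f ∣ ∏ j, F j → f.totalDegree ≤ d →
          ∃ p ∈ points n (m * (t + 1)) ((s + k + 2) ^ A) d,
            MvPolynomial.eval (fun i => (p i : ℂ)) f ≠ 0) ∧
    ∀ (n w s D t q : ℕ) (T : Fin q → Multiset (Formula n)), 1 ≤ w →
      (∀ i, ∀ E ∈ T i, E.Leaves (Prog w s D) ∧ (∀ x, E.reads x ≤ w) ∧
        (Rank w false t ∅ E ∨ (∀ x, E.reads x ≤ 1) ∨ E.sumDepth ≤ t ∨
          E.size < 2 ^ (t + 1))) →
      Sums w s D t q (∑ i, ((T i).map Formula.value).prod) := by
  refine ⟨?_, ?_⟩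
  · intro w D q ρ
    obtain ⟨A, m, c, hm⟩ := layers_hit w D q ρ
    refine ⟨A, m, c, fun n s t k δ d =>
      ⟨Pool.Agent.H626R2.Loc.pointsE_card n _ ((s + k + 2) ^ A) d,
      fun p hp i => Pool.Agent.H626R2.Loc.pointsE_bound n _ ((s + k + 2) ^ A) d p hp i, ?_⟩⟩
    intro r L E hr hρ hE f J F hF hF0 hdvd hd
    refine exists_point (fun hz => ?_) hd
    obtain ⟨g, hg⟩ := hdvd
    have h2 : evG ℂ (base ℂ n ((s + k + 2) ^ A)) (m * (t + 1)) (∏ j, F j) = 0 := by
      rw [hg, map_mul, hz, zero_mul]
    rw [map_prod] at h2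
    obtain ⟨j, _, hj⟩ := Finset.prod_eq_zero_iff.1 h2
    exact hm n s t k δ r L E hr hρ hE (F j) (hF j) (hF0 j) hj
  · intro n w s D t q T hw hT
    refine sums_of_products (fun i => (T i).map Formula.value) fun i g hg => ?_
    obtain ⟨E, hE, rfl⟩ := Multiset.mem_map.1 hg
    obtain ⟨h1, h2, h3⟩ := hT i E hE
    refine comp_formula hw E h1 h2 ?_
    rcases h3 with h3 | h3 | h3 | h3
    · exact h3
    · exact rank_of_readOnce E h3
    · exact (rank_of_sumDepth E t h3).1
    · exact .spine (spine_of_size E t h3)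

end Pool.Agent.Results.MP_c2aa42_lc.ZHighPowerSums
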